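import Pool.Agent.Helper87.SN.Final
import Pool.Agent.Helper35.SN.Deviss

set_option autoImplicit false
set_option linter.unusedSectionVars false

/-!
# PROJECT SB, block N, part (b): the reduction homomorphism for a valuation subring (export)
-/

open IsLocalRing

namespace Pool.Agent.SN

open Pool.Agent.Helper12.SN Pool.Agent.SB

variable {W : Type} [Field W] [IsAlgClosed W] (V : ValuationSubring W) {ℓ : ℕ} [Fact ℓ.Prime]
  (c : Fin 3 → V) [Good ℓ (fun i => (c i : W))] [IsAlgClosed (ResidueField V)]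
  [Good ℓ (fun i => residue V (c i))] (z : V) (hz : IsPrimitiveRoot (z : W) ℓ)
  (hz' : IsPrimitiveRoot (residue V z) ℓ)

include hz hz'

theorem exists_red_sub :
    ∃ red : ClassGroup (RR ℓ (fun i => (c i : W))) →*
        ClassGroup (RR ℓ (fun i => residue V (c i))),
      (∀ i, red (cl (pp (fun i => (c i : W)) i)) = cl (pp (fun i => residue V (c i)) i)) ∧
      (∀ (τ : W ≃+* W) (hτ : ∀ i, τ (c i) = c i) (τ' : ResidueField V ≃+* ResidueField V)
        (hτ' : ∀ i, τ' (residue V (c i)) = residue V (c i)) (τV : V ≃+* V),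
        (∀ a, (τV a : W) = τ a) → (∀ a, residue V (τV a) = τ' (residue V a)) → ∀ a,
        red (clm (RR.mapEquiv τ hτ) a) = clm (RR.mapEquiv τ' hτ') (red a)) ∧
      (∀ a, red (clm (rot (z : W) hz.pow_eq_one) a) =
        clm (rot (residue V z) hz'.pow_eq_one) (red a)) ∧
      (∀ a, a ∈ primPart (pi1 (z : W) hz.pow_eq_one) → red a = 1 → a = 1) := by
  obtain ⟨R, h1, h2, h3, h4⟩ := exists_red (V := V) (W := W) (κ := ResidueField V) (cV := c)
    (cW := fun i => (c i : W)) (cκ := fun i => residue V (c i)) (ζ := z)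
    (residue V) residue_surjective (fun _ => rfl) (fun _ => rfl) hz hz'
  refine ⟨R, h1, ?_, ?_, ?_⟩
  · intro τ hτ τ' hτ' τV h5 h6 a
    exact h3 τV τ τ' hτ hτ' h5 (fun a => (h6 a).symm) a
  · intro a
    exact h2 z hz.pow_eq_one hz'.pow_eq_one a
  · rintro a ⟨n, hn⟩ ha
    exact h4 a n hn ha

end Pool.Agent.SN
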