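import Mathlib

set_option autoImplicit false

/-!
# PROJECT SB, block N, part (b): reduction of ideal classes, abstract form

`Side f A J`: a ring `A` over a field `f` with a finite family `σ j` of automorphisms such that the
product of the conjugates of an element is a polynomial in `x`, and the product of the conjugates
of a maximal ideal is `(x - a)`.

`Red S S' r ι φ`: a ring `B` over the valuation ring `O` of `W`, with an injection `ι : B → A` and a
surjection `φ : B → A'`, where `A`, `A'` are rings of the above kind over `W`, `κ`.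
-/

open Polynomial Finset
open scoped nonZeroDivisors

namespace Pool.Agent.SN

/-- one side of the reduction -/
structure Side (f A J : Type*) [Field f] [CommRing A] [Fintype J] where
  e : f[X] →+* A
  σ : J → A ≃+* A
  one : ∃ j, ∀ a : A, σ j a = a
  xinj : Function.Injective e
  prime : ∀ P : Ideal A, P.IsMaximal → ∃ a : f, e X - e (C a) ∈ P ∧
    ∏ j, P.map (σ j : A →+* A) = Ideal.span {e X - e (C a)}
  res : ∀ P : Ideal A, P.IsMaximal → ∀ h : A, ∃ b : f, h - e (C b) ∈ P
  units : ∀ u : A, IsUnit u → ∃ b : f, b ≠ 0 ∧ u = e (C b)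

/-- the reduction -/
structure Red {W κ O A A' B J : Type*} [Field W] [Field κ] [CommRing O]
    [CommRing A] [CommRing A'] [CommRing B] [Algebra O W]
    [Fintype J] (S : Side W A J) (S' : Side κ A' J) (r : O →+* κ) (ι : B →+* A) (φ : B →+* A') where
  rsurj : Function.Surjective r
  c : O[X] →+* B
  inj : Function.Injective ι
  surj : Function.Surjective φ
  ιc : ∀ q : O[X], ι (c q) = S.e (q.map (algebraMap O W))
  φc : ∀ q : O[X], φ (c q) = S'.e (q.map r)
  scale : ∀ h : A, h ≠ 0 → ∃ a : W, a ≠ 0 ∧ ∃ b : B, ι b = S.e (C a) * h ∧ φ b ≠ 0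
  norm : ∀ b : B, ∃ q : O[X], ∏ j, S.σ j (ι b) = S.e (q.map (algebraMap O W)) ∧
    ∏ j, S'.σ j (φ b) = S'.e (q.map r)

section val

variable {W κ O : Type*} [Field W] [Field κ] [CommRing O] [IsDomain O] [ValuationRing O]
  [Algebra O W] [IsFractionRing O W] (r : O →+* κ)

include r in
theorem Val.inv_mem (hr : Function.Surjective r) (a : W) (ha : ¬ ∃ o : O, algebraMap O W o = a) :
    ∃ o : O, algebraMap O W o = a⁻¹ ∧ r o = 0 := by
  rcases ValuationRing.isInteger_or_isInteger O a with h | h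
  · exact absurd (by obtain ⟨o, ho⟩ := h; exact ⟨o, ho⟩) ha
  · obtain ⟨o, ho⟩ := h
    refine ⟨o, ho, ?_⟩
    by_contra hne
    have hu : IsUnit o := by
      by_contra hu
      have hmem : o ∈ IsLocalRing.maximalIdeal O := hu
      have hk : RingHom.ker r = IsLocalRing.maximalIdeal O :=
        IsLocalRing.eq_maximalIdeal (RingHom.ker_isMaximal_of_surjective r hr)
      rw [← hk] at hmem
      exact hne hmem
    obtain ⟨u, rfl⟩ := hu
    apply ha
    refine ⟨((u⁻¹ : Oˣ) : O), ?_⟩
    have h1 : algebraMap O W (u : O) * algebraMap O W ((u⁻¹ : Oˣ) : O) = 1 := by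
      rw [← map_mul, Units.mul_inv, map_one]
    rw [ho] at h1
    have ha0 : a ≠ 0 := by
      rintro rfl
      simp at h1
    field_simp at h1
    exact h1

end val

/-- the reduction of an ideal -/
def redP {A A' B : Type*} [CommRing A] [CommRing A'] [CommRing B] (ι : B →+* A) (φ : B →+* A')
    (P : Ideal A) : Ideal A' := (P.comap ι).map φ

section

variable {W κ O A A' B J : Type*} [Field W] [Field κ] [CommRing O] [IsDomain O] [ValuationRing O]
    [Algebra O W] [IsFractionRing O W]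
    [CommRing A] [CommRing A'] [CommRing B]
    [Fintype J] {S : Side W A J} {S' : Side κ A' J} {r : O →+* κ} {ι : B →+* A} {φ : B →+* A'}
    (D : Red S S' r ι φ)

include D

omit [IsDomain O] [ValuationRing O] [IsFractionRing O W] in
theorem Red.mem_redP {P : Ideal A} {h' : A'} : h' ∈ redP ι φ P ↔ ∃ b : B, ι b ∈ P ∧ φ b = h' := by
  unfold redP
  rw [Ideal.mem_map_iff_of_surjective φ D.surj]
  rfl

omit [IsDomain O] [ValuationRing O] [IsFractionRing O W] in
theorem Red.ιC (o : O) : ι (D.c (C o)) = S.e (C (algebraMap O W o)) := by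
  rw [D.ιc, Polynomial.map_C]

omit [IsDomain O] [ValuationRing O] [IsFractionRing O W] in
theorem Red.φC (o : O) : φ (D.c (C o)) = S'.e (C (r o)) := by
  rw [D.φc, Polynomial.map_C]

omit [IsDomain O] [ValuationRing O] [IsFractionRing O W] in
theorem Red.ιX : ι (D.c X) = S.e X := by
  rw [D.ιc, Polynomial.map_X]

omit [IsDomain O] [ValuationRing O] [IsFractionRing O W] in
theorem Red.φX : φ (D.c X) = S'.e X := by
  rw [D.φc, Polynomial.map_X]

omit [IsDomain O] [ValuationRing O] [IsFractionRing O W] in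
theorem Red.redP_top : redP ι φ (⊤ : Ideal A) = ⊤ := by
  rw [Ideal.eq_top_iff_one, D.mem_redP]
  exact ⟨1, trivial, map_one φ⟩

omit [IsDomain O] [ValuationRing O] [IsFractionRing O W] in
theorem Red.redP_ne_bot {P : Ideal A} (hP : P ≠ ⊥) : redP ι φ P ≠ ⊥ := by
  obtain ⟨h, hhP, hh⟩ := Submodule.exists_mem_ne_zero_of_ne_bot hP
  obtain ⟨a, -, b, hb, hφ⟩ := D.scale h hh
  intro hbot
  have : φ b ∈ redP ι φ P := D.mem_redP.2 ⟨b, by rw [hb]; exact P.mul_mem_left _ hhP, rfl⟩
  rw [hbot] at this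
  exact hφ this

omit D [IsDomain O] [ValuationRing O] [IsFractionRing O W] in
theorem redP_mul_le (I K : Ideal A) : redP ι φ I * redP ι φ K ≤ redP ι φ (I * K) := by
  unfold redP
  rw [← Ideal.map_mul]
  exact Ideal.map_mono (Ideal.le_comap_mul ι)

theorem Red.val_or (u : A) : (∃ b : B, ι b = u) ∨
    (∃ o : O, r o = 0 ∧ ∃ b : B, ι b = ι (D.c (C o)) * u ∧ φ b ≠ 0) := by
  by_cases hu : u = 0
  · exact Or.inl ⟨0, by rw [hu, map_zero]⟩
  obtain ⟨a, ha, b, hb, hφ⟩ := D.scale u hu
  by_cases h : ∃ o : O, algebraMap O W o = a⁻¹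
  · obtain ⟨o, ho⟩ := h
    refine Or.inl ⟨D.c (C o) * b, ?_⟩
    rw [map_mul, D.ιC, ho, hb, ← mul_assoc, ← map_mul, ← C_mul, inv_mul_cancel₀ ha, C_1, map_one, one_mul]
  · obtain ⟨o, ho, hr⟩ := Val.inv_mem r D.rsurj a⁻¹ h
    rw [inv_inv] at ho
    exact Or.inr ⟨o, hr, b, by rw [hb, D.ιC, ho], hφ⟩

/-- saturation -/
theorem Red.mem_span [IsDomain A'] (h g : B) (hh : φ h ≠ 0) (hg : ι g ∈ Ideal.span {ι h}) :
    φ g ∈ Ideal.span {φ h} := by
  rw [Ideal.mem_span_singleton] at hg ⊢
  obtain ⟨u, hu⟩ := hg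
  rcases D.val_or u with ⟨b, rfl⟩ | ⟨o, ho, b, hb, hφ⟩
  · rw [← map_mul] at hu
    rw [D.inj hu, map_mul]
    exact dvd_mul_right _ _
  · exfalso
    have h1 : ι (D.c (C o) * g) = ι (h * b) := by
      rw [map_mul, map_mul, hb, hu]; ring
    have h2 := congrArg φ (D.inj h1)
    rw [map_mul, map_mul, D.φC, ho, C_0, map_zero, zero_mul] at h2
    rcases mul_eq_zero.1 h2.symm with h3 | h3
    · exact hh h3
    · exact hφ h3

theorem Red.redP_span_le [IsDomain A']
    (h : B) (hh : φ h ≠ 0) : redP ι φ (Ideal.span {ι h}) ≤ Ideal.span {φ h} := by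
  intro u hu
  obtain ⟨b, hb, rfl⟩ := D.mem_redP.1 hu
  exact D.mem_span h b hh hb

end

section side

variable {f A J : Type*} [Field f] [CommRing A] [Fintype J] (S : Side f A J)

/-- product of the conjugates of an ideal -/
def Side.NI (I : Ideal A) : Ideal A := ∏ j, I.map (S.σ j : A →+* A)

theorem Side.NI_mul (I K : Ideal A) : S.NI (I * K) = S.NI I * S.NI K := by
  unfold Side.NI
  rw [← Finset.prod_mul_distrib]
  exact Finset.prod_congr rfl fun j _ => Ideal.map_mul _ _ _

theorem Side.NI_top : S.NI ⊤ = ⊤ := by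
  unfold Side.NI
  rw [← Ideal.one_eq_top]
  apply Finset.prod_eq_one
  intro j _
  rw [Ideal.one_eq_top, Ideal.map_top]

theorem Side.NI_span (h : A) : S.NI (Ideal.span {h}) = Ideal.span {∏ j, S.σ j h} := by
  unfold Side.NI
  rw [← Ideal.prod_span_singleton]
  refine Finset.prod_congr rfl fun j _ => ?_
  rw [Ideal.map_span, Set.image_singleton]
  rfl

theorem Side.dvd_NI (I : Ideal A) : I ∣ S.NI I := by
  obtain ⟨j, hj⟩ := S.one
  have h1 : I.map (S.σ j : A →+* A) = I := by
    have : (S.σ j : A →+* A) = RingHom.id A := RingHom.ext hj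
    rw [this, Ideal.map_id]
  unfold Side.NI
  conv_lhs => rw [← h1]
  exact Finset.dvd_prod_of_mem _ (Finset.mem_univ j)

theorem Side.prod_mem {P : Ideal A} {h : A} (hh : h ∈ P) : ∏ j, S.σ j h ∈ P := by
  obtain ⟨j, hj⟩ := S.one
  have h1 : S.σ j h ∈ P := by rw [hj]; exact hh
  exact Ideal.mem_of_dvd _ (Finset.dvd_prod_of_mem (fun j => S.σ j h) (Finset.mem_univ j)) h1

theorem Side.eval_mem {P : Ideal A} {a : f} (ha : S.e X - S.e (C a) ∈ P) (p : f[X]) :
    S.e p - S.e (C (p.eval a)) ∈ P := by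
  have h1 : (X - C a) ∣ p - C (p.eval a) := by
    rw [Polynomial.dvd_iff_isRoot]
    simp
  obtain ⟨q, hq⟩ := h1
  have h2 : S.e p - S.e (C (p.eval a)) = (S.e X - S.e (C a)) * S.e q := by
    have := congrArg (S.e) hq
    simpa using this
  rw [h2]
  exact P.mul_mem_right _ ha

theorem Side.inv_mul {a : f} (ha : a ≠ 0) : S.e (C a⁻¹) * S.e (C a) = 1 := by
  rw [← map_mul, ← C_mul, inv_mul_cancel₀ ha, C_1, map_one]

theorem Side.const_mem {P : Ideal A} (hP : P ≠ ⊤) {a : f} (ha : S.e (C a) ∈ P) : a = 0 := by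
  by_contra h
  apply hP
  rw [Ideal.eq_top_iff_one]
  have : (1 : A) = S.e (C a⁻¹) * S.e (C a) := by
    rw [← map_mul, ← C_mul, inv_mul_cancel₀ h, C_1, map_one]
  rw [this]
  exact P.mul_mem_left _ ha

end side

end Pool.Agent.SN
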