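import Pool.Agent.Helper87.SN.Nrm

set_option autoImplicit false
set_option linter.unusedSectionVars false

/-!
# PROJECT SB, block N, part (b): the reduction homomorphism of class groups
-/

open Polynomial Finset UniqueFactorizationMonoid
open scoped nonZeroDivisors

namespace Pool.Agent.SN

section

variable {W κ O A A' B J : Type*} [Field W] [Field κ] [CommRing O] [IsDomain O] [ValuationRing O]
    [Algebra O W] [IsFractionRing O W]
    [CommRing A] [IsDedekindDomain A] [CommRing A'] [IsDedekindDomain A']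
    [CommRing B]
    [Fintype J] {S : Side W A J} {S' : Side κ A' J} {r : O →+* κ} {ι : B →+* A} {φ : B →+* A'}
    (D : Red S S' r ι φ)

/-- the class of the reduction of a nonzero ideal -/
noncomputable def Red.rmk : (Ideal A)⁰ →* ClassGroup A' where
  toFun I := ClassGroup.mk0 ⟨redI ι φ I, mem_nonZeroDivisors_iff_ne_zero.2 (D.redI_ne_zero I)⟩
  map_one' := by
    rw [← map_one (ClassGroup.mk0 (R := A'))]
    congr 1
    apply Subtype.ext
    exact redI_one ι φ
  map_mul' := by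
    intro I K
    rw [← map_mul]
    congr 1
    apply Subtype.ext
    exact redI_mul ι φ (mem_nonZeroDivisors_iff_ne_zero.1 I.2) (mem_nonZeroDivisors_iff_ne_zero.1 K.2)

theorem Red.rmk_apply (I : (Ideal A)⁰) : D.rmk I =
    ClassGroup.mk0 ⟨redI ι φ I, mem_nonZeroDivisors_iff_ne_zero.2 (D.redI_ne_zero I)⟩ := rfl

theorem Red.rmk_principal {I : (Ideal A)⁰} {h : A} (hI : (I : Ideal A) = Ideal.span {h}) :
    D.rmk I = 1 := by
  have hh : h ≠ 0 := by
    rintro rfl
    apply mem_nonZeroDivisors_iff_ne_zero.1 I.2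
    rw [hI, Ideal.zero_eq_bot, Ideal.span_singleton_eq_bot]
  obtain ⟨b, -, hb⟩ := D.redI_principal hh
  rw [D.rmk_apply, ClassGroup.mk0_eq_one_iff, hI, hb]
  exact ⟨⟨φ b, rfl⟩⟩

theorem Red.rmk_eq {I K : (Ideal A)⁰} (h : ClassGroup.mk0 I = ClassGroup.mk0 K) :
    D.rmk I = D.rmk K := by
  obtain ⟨x, y, hx, hy, hxy⟩ := ClassGroup.mk0_eq_mk0_iff.1 h
  have hx' : (Ideal.span {x} : Ideal A) ∈ (Ideal A)⁰ := by
    rw [mem_nonZeroDivisors_iff_ne_zero, Ideal.zero_eq_bot, Ne, Ideal.span_singleton_eq_bot]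
    exact hx
  have hy' : (Ideal.span {y} : Ideal A) ∈ (Ideal A)⁰ := by
    rw [mem_nonZeroDivisors_iff_ne_zero, Ideal.zero_eq_bot, Ne, Ideal.span_singleton_eq_bot]
    exact hy
  have h1 : (⟨_, hx'⟩ : (Ideal A)⁰) * I = ⟨_, hy'⟩ * K := Subtype.ext hxy
  have h2 := congrArg D.rmk h1
  rw [map_mul, map_mul, D.rmk_principal (I := ⟨_, hx'⟩) rfl, D.rmk_principal (I := ⟨_, hy'⟩) rfl,
    one_mul, one_mul] at h2
  exact h2

/-- the reduction homomorphism of class groups -/
noncomputable def Red.redC : ClassGroup A →* ClassGroup A' where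
  toFun a := D.rmk (Classical.choose (ClassGroup.mk0_surjective a))
  map_one' := by
    rw [← map_one D.rmk]
    apply D.rmk_eq
    rw [Classical.choose_spec (ClassGroup.mk0_surjective _), map_one]
  map_mul' := by
    intro a b
    rw [← map_mul D.rmk]
    apply D.rmk_eq
    rw [map_mul, Classical.choose_spec (ClassGroup.mk0_surjective _),
      Classical.choose_spec (ClassGroup.mk0_surjective _),
      Classical.choose_spec (ClassGroup.mk0_surjective _)]

theorem Red.redC_mk0 (I : (Ideal A)⁰) : D.redC (ClassGroup.mk0 I) =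
    ClassGroup.mk0 ⟨redI ι φ I, mem_nonZeroDivisors_iff_ne_zero.2 (D.redI_ne_zero I)⟩ := by
  rw [← D.rmk_apply]
  apply D.rmk_eq
  exact Classical.choose_spec (ClassGroup.mk0_surjective _)

/-- the reduction of the class of a maximal ideal -/
theorem Red.redC_prime {P : Ideal A} (hP : P.IsMaximal) (hP0 : P ≠ ⊥) :
    D.redC (ClassGroup.mk0 ⟨P, mem_nonZeroDivisors_iff_ne_zero.2 hP0⟩) =
      ClassGroup.mk0 ⟨redP ι φ P, mem_nonZeroDivisors_iff_ne_zero.2 (D.redP_ne_bot hP0)⟩ := by
  rw [D.redC_mk0]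
  congr 1
  apply Subtype.ext
  exact redI_prime ι φ hP hP0

end

/-! ### Equivariance -/

section

variable {A A' B : Type*} [CommRing A] [CommRing A'] [CommRing B] {ι : B →+* A} {φ : B →+* A'}

theorem mem_map_equiv {R : Type*} [CommRing R] (g : R ≃+* R) (I : Ideal R) (a : R) :
    a ∈ I.map (g : R →+* R) ↔ g.symm a ∈ I := by
  rw [Ideal.mem_map_iff_of_surjective (g : R →+* R) g.surjective]
  constructor
  · rintro ⟨b, hb, rfl⟩
    simpa using hb
  · intro h
    exact ⟨g.symm a, h, by simp⟩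

theorem map_equiv_maximal {R : Type*} [CommRing R] (g : R ≃+* R) {I : Ideal R}
    (hI : I.IsMaximal) : (I.map (g : R →+* R)).IsMaximal :=
  Ideal.map_isMaximal_of_equiv g

theorem map_equiv_ne_bot {R : Type*} [CommRing R] (g : R ≃+* R) {I : Ideal R}
    (hI : I ≠ ⊥) : I.map (g : R →+* R) ≠ ⊥ := by
  intro h
  exact hI ((Ideal.map_eq_bot_iff_of_injective (f := (g : R →+* R)) g.injective).1 h)

theorem redP_map (hφ : Function.Surjective φ) (g : A ≃+* A) (g' : A' ≃+* A') (gB : B ≃+* B)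
    (h1 : ∀ b, ι (gB b) = g (ι b)) (h2 : ∀ b, φ (gB b) = g' (φ b)) (P : Ideal A) :
    redP ι φ (P.map (g : A →+* A)) = (redP ι φ P).map (g' : A' →+* A') := by
  have mem : ∀ (Q : Ideal A) (h' : A'), h' ∈ redP ι φ Q ↔ ∃ b : B, ι b ∈ Q ∧ φ b = h' := by
    intro Q h'
    unfold redP
    rw [Ideal.mem_map_iff_of_surjective φ hφ]
    rfl
  ext a
  rw [mem_map_equiv, mem, mem]
  constructor
  · rintro ⟨b, hb, rfl⟩
    refine ⟨gB.symm b, ?_, ?_⟩
    · rw [mem_map_equiv] at hb
      have : ι (gB.symm b) = g.symm (ι b) := by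
        rw [RingEquiv.eq_symm_apply, ← h1, RingEquiv.apply_symm_apply]
      rw [this]
      exact hb
    · rw [RingEquiv.eq_symm_apply, ← h2, RingEquiv.apply_symm_apply]
  · rintro ⟨b, hb, hb'⟩
    refine ⟨gB b, ?_, ?_⟩
    · rw [mem_map_equiv, h1, RingEquiv.symm_apply_apply]
      exact hb
    · rw [h2, hb', RingEquiv.apply_symm_apply]

theorem redI_map [IsDedekindDomain A] (hφ : Function.Surjective φ) (g : A ≃+* A)
    (g' : A' ≃+* A') (gB : B ≃+* B)
    (h1 : ∀ b, ι (gB b) = g (ι b)) (h2 : ∀ b, φ (gB b) = g' (φ b)) {I : Ideal A} (hI : I ≠ 0) :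
    redI ι φ (I.map (g : A →+* A)) = (redI ι φ I).map (g' : A' →+* A') := by
  have h3 : I.map (g : A →+* A) =
      ((normalizedFactors I).map (fun P => P.map (g : A →+* A))).prod := by
    conv_lhs => rw [← normalizedFactors_prod_ideal hI]
    exact map_multiset_prod (Ideal.mapHom (g : A →+* A)) _
  have h4 := (redI_multiset ι φ ((normalizedFactors I).map (fun P => P.map (g : A →+* A)))
    (by
      intro Q hQ
      obtain ⟨P, hP, rfl⟩ := Multiset.mem_map.1 hQ
      obtain ⟨h5, h6⟩ := mem_normalizedFactors_maximal hP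
      exact ⟨map_equiv_maximal g h5, map_equiv_ne_bot g h6⟩)).2
  rw [h3, h4]
  unfold redI
  rw [Multiset.map_map]
  have h5 := map_multiset_prod (Ideal.mapHom (g' : A' →+* A'))
    ((normalizedFactors I).map (redP ι φ))
  rw [Multiset.map_map] at h5
  refine Eq.trans ?_ h5.symm
  congr 1
  apply Multiset.map_congr rfl
  intro P _
  exact redP_map hφ g g' gB h1 h2 P

end

section

variable {W κ O A A' B J : Type*} [Field W] [Field κ] [CommRing O] [IsDomain O] [ValuationRing O]
    [Algebra O W] [IsFractionRing O W]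
    [CommRing A] [IsDedekindDomain A] [CommRing A'] [IsDedekindDomain A']
    [CommRing B]
    [Fintype J] {S : Side W A J} {S' : Side κ A' J} {r : O →+* κ} {ι : B →+* A} {φ : B →+* A'}
    (D : Red S S' r ι φ)

/-- equivariance of the reduction homomorphism -/
theorem Red.redC_map (g : A ≃+* A) (g' : A' ≃+* A') (gB : B ≃+* B)
    (h1 : ∀ b, ι (gB b) = g (ι b)) (h2 : ∀ b, φ (gB b) = g' (φ b))
    (G : ClassGroup A →* ClassGroup A) (G' : ClassGroup A' →* ClassGroup A')
    (hG : ∀ I K : (Ideal A)⁰, (K : Ideal A) = (I : Ideal A).map (g : A →+* A) →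
      G (ClassGroup.mk0 I) = ClassGroup.mk0 K)
    (hG' : ∀ I K : (Ideal A')⁰, (K : Ideal A') = (I : Ideal A').map (g' : A' →+* A') →
      G' (ClassGroup.mk0 I) = ClassGroup.mk0 K) (a : ClassGroup A) :
    D.redC (G a) = G' (D.redC a) := by
  obtain ⟨I, rfl⟩ := ClassGroup.mk0_surjective a
  have hI : (I : Ideal A) ≠ 0 := mem_nonZeroDivisors_iff_ne_zero.1 I.2
  have hgI : (I : Ideal A).map (g : A →+* A) ≠ 0 := map_equiv_ne_bot g hI
  rw [hG I ⟨_, mem_nonZeroDivisors_iff_ne_zero.2 hgI⟩ rfl, D.redC_mk0, D.redC_mk0]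
  symm
  apply hG'
  exact redI_map D.surj g g' gB h1 h2 hI

end

end Pool.Agent.SN
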