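import Pool.Agent.Helper87.SN.Inst

set_option autoImplicit false
set_option linter.unusedSectionVars false

/-!
# PROJECT SB, block N, part (b): the reduction homomorphism `Cl(O_W) → Cl(O_κ)`

Main theorem: `exists_red`.
-/

open Polynomial Finset
open scoped nonZeroDivisors

namespace Pool.Agent.SN

open Pool.Agent.Helper12.SN

section

variable {W κ O A A' B J : Type} [Field W] [Field κ] [CommRing O] [IsDomain O] [ValuationRing O]
    [Algebra O W] [IsFractionRing O W]
    [CommRing A] [IsDedekindDomain A] [CommRing A'] [IsDedekindDomain A']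
    [CommRing B]
    [Fintype J] {S : Side W A J} {S' : Side κ A' J} {r : O →+* κ} {ι : B →+* A} {φ : B →+* A'}
    (D : Red S S' r ι φ)

theorem Red.redC_cl {I : Ideal A} (hI : I ≠ ⊥) : D.redC (cl I) = cl (redI ι φ I) := by
  rw [cl_of_ne hI, cl_of_ne (D.redI_ne_zero I)]
  exact D.redC_mk0 _

theorem Red.redC_clm (g : A ≃+* A) (g' : A' ≃+* A') (gB : B ≃+* B)
    (h1 : ∀ b, ι (gB b) = g (ι b)) (h2 : ∀ b, φ (gB b) = g' (φ b)) (x : ClassGroup A) :
    D.redC (clm g x) = clm g' (D.redC x) := by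
  obtain ⟨I, hI, rfl⟩ := cl_surj x
  rw [clm_cl g hI, D.redC_cl hI, D.redC_cl (map_ne_bot g hI), clm_cl g' (D.redI_ne_zero I)]
  congr 1
  exact redI_map D.surj g g' gB h1 h2 hI

end

section lifts

variable {V W κ : Type} [CommRing V] [IsDomain V] [ValuationRing V]
  [Field W] [Algebra V W] [IsFractionRing V W] [Field κ]

/-- an automorphism of `W` preserving the valuation ring restricts to it -/
theorem exists_restrict (γ : W ≃+* W)
    (h1 : ∀ a : V, ∃ b : V, algebraMap V W b = γ (algebraMap V W a))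
    (h2 : ∀ a : V, ∃ b : V, algebraMap V W b = γ.symm (algebraMap V W a)) :
    ∃ γV : V ≃+* V, ∀ a, algebraMap V W (γV a) = γ (algebraMap V W a) := by
  have hinj : Function.Injective (algebraMap V W) := IsFractionRing.injective V W
  choose g hg using h1
  choose g' hg' using h2
  refine ⟨{ toFun := g, invFun := g', left_inv := ?_, right_inv := ?_, map_mul' := ?_,
            map_add' := ?_ }, hg⟩
  · intro a
    apply hinj
    rw [hg', hg, RingEquiv.symm_apply_apply]
  · intro a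
    apply hinj
    rw [hg, hg', RingEquiv.apply_symm_apply]
  · intro a b
    apply hinj
    rw [hg, map_mul, map_mul, map_mul, hg, hg]
  · intro a b
    apply hinj
    rw [hg, map_add, map_add, map_add, hg, hg]

/-- the induced automorphism of the residue field -/
theorem exists_residue (r : V →+* κ) (hr : Function.Surjective r) (γV : V ≃+* V) :
    ∃ γκ : κ ≃+* κ, ∀ a, γκ (r a) = r (γV a) := by
  have hk : ∀ g : V ≃+* V, ∀ a : V, r a = 0 → r (g a) = 0 := by
    intro g a ha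
    have hker : RingHom.ker r = IsLocalRing.maximalIdeal V :=
      IsLocalRing.eq_maximalIdeal (RingHom.ker_isMaximal_of_surjective r hr)
    have h1 : a ∈ IsLocalRing.maximalIdeal V := hker ▸ (show a ∈ RingHom.ker r from ha)
    have h2 : g a ∈ IsLocalRing.maximalIdeal V := by
      rw [IsLocalRing.mem_maximalIdeal, mem_nonunits_iff] at h1 ⊢
      intro hu
      exact h1 ((isUnit_map_iff g a).1 hu)
    rw [← hker] at h2
    exact h2
  have hk2 : ∀ g : V ≃+* V, ∀ a b : V, r a = r b → r (g a) = r (g b) := by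
    intro g a b hab
    have := hk g (a - b) (by rw [map_sub, hab, sub_self])
    rw [map_sub, map_sub, sub_eq_zero] at this
    exact this
  choose s hs using hr
  refine ⟨{ toFun := fun a => r (γV (s a)), invFun := fun a => r (γV.symm (s a)),
            left_inv := ?_, right_inv := ?_, map_mul' := ?_, map_add' := ?_ }, ?_⟩
  · intro a
    have := hk2 γV.symm (s (r (γV (s a)))) (γV (s a)) (hs _)
    change r (γV.symm (s (r (γV (s a))))) = a
    rw [this, RingEquiv.symm_apply_apply, hs]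
  · intro a
    have := hk2 γV (s (r (γV.symm (s a)))) (γV.symm (s a)) (hs _)
    change r (γV (s (r (γV.symm (s a))))) = a
    rw [this, RingEquiv.apply_symm_apply, hs]
  · intro a b
    have := hk2 γV (s (a * b)) (s a * s b) (by rw [hs, map_mul, hs, hs])
    change r (γV (s (a * b))) = r (γV (s a)) * r (γV (s b))
    rw [this, map_mul, map_mul]
  · intro a b
    have := hk2 γV (s (a + b)) (s a + s b) (by rw [hs, map_add, hs, hs])
    change r (γV (s (a + b))) = r (γV (s a)) + r (γV (s b))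
    rw [this, map_add, map_add]
  · intro a
    exact hk2 γV _ _ (hs _)

end lifts

section pi

variable {ℓ : ℕ} [Fact ℓ.Prime] {f : Type} [Field f] {c : Fin 3 → f} [Good ℓ c]

theorem pi1_iter_one {z : f} (hz : z ^ ℓ = 1) (n : ℕ) :
    (pi1 z hz : ClassGroup (RR ℓ c) →* _)^[n] 1 = 1 :=
  iterate_map_one _ n

theorem pi1_iter_mono {z : f} (hz : z ^ ℓ = 1) {n m : ℕ} (h : n ≤ m) (x : ClassGroup (RR ℓ c))
    (hx : (pi1 z hz)^[n] x = 1) : (pi1 z hz)^[m] x = 1 := by
  obtain ⟨k, rfl⟩ := Nat.exists_eq_add_of_le' h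
  rw [Function.iterate_add_apply, hx, iterate_map_one]

theorem pi1_iter_div {z : f} (hz : z ^ ℓ = 1) {n m : ℕ} (x y : ClassGroup (RR ℓ c))
    (hx : (pi1 z hz)^[n] x = 1) (hy : (pi1 z hz)^[m] y = 1) :
    (pi1 z hz)^[max n m] (x / y) = 1 := by
  rw [iterate_map_div, pi1_iter_mono hz (le_max_left n m) x hx,
    pi1_iter_mono hz (le_max_right n m) y hy, div_one]

end pi

section main

variable {ℓ : ℕ} [Fact ℓ.Prime] {V W κ : Type} [CommRing V] [IsDomain V] [ValuationRing V]
  [Field W] [Algebra V W] [IsFractionRing V W] [Field κ] [IsAlgClosed W] [IsAlgClosed κ]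
  (r : V →+* κ) (hr : Function.Surjective r)
  {cV : Fin 3 → V} {cW : Fin 3 → W} {cκ : Fin 3 → κ}
  (hW : ∀ i, algebraMap V W (cV i) = cW i) (hκ : ∀ i, r (cV i) = cκ i)
  [Good ℓ cW] [Good ℓ cκ] {ζ : V} (hζW : IsPrimitiveRoot (algebraMap V W ζ) ℓ)
  (hζκ : IsPrimitiveRoot (r ζ) ℓ)

include hr hW hκ hζW hζκ

/-- the reduction homomorphism of class groups -/
theorem exists_red : ∃ R : ClassGroup (RR ℓ cW) →* ClassGroup (RR ℓ cκ),
    (∀ i, R (cl (pp cW i)) = cl (pp cκ i)) ∧
    (∀ (z : V) (hz : algebraMap V W z ^ ℓ = 1) (hz' : r z ^ ℓ = 1) (x : ClassGroup (RR ℓ cW)),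
      R (clm (rot (algebraMap V W z) hz) x) = clm (rot (r z) hz') (R x)) ∧
    (∀ (γV : V ≃+* V) (γ : W ≃+* W) (γκ : κ ≃+* κ) (hγ : ∀ i, γ (cW i) = cW i)
      (hγκ : ∀ i, γκ (cκ i) = cκ i), (∀ a, algebraMap V W (γV a) = γ (algebraMap V W a)) →
      (∀ a, γκ (r a) = r (γV a)) → ∀ x : ClassGroup (RR ℓ cW),
      R (clm (RR.mapEquiv γ hγ) x) = clm (RR.mapEquiv γκ hγκ) (R x)) ∧
    (∀ (x : ClassGroup (RR ℓ cW)) (n : ℕ), (pi1 (algebraMap V W ζ) hζW.pow_eq_one)^[n] x = 1 →
      R x = 1 → x = 1) := by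
  have hinj : Function.Injective (algebraMap V W) := IsFractionRing.injective V W
  have hpp : ∀ i, (red r hW hκ hr hζW hζκ).redC (cl (pp cW i)) = cl (pp cκ i) := by
    intro i
    have h1 : (pp cW i : Ideal (RR ℓ cW)).IsMaximal := pp_isMaximal i
    rw [Red.redC_cl _ (ne_bot_of_isMaximal h1), redI_prime _ _ h1 (ne_bot_of_isMaximal h1)]
    congr 1
    have h2 : algebraMap W[X] (RR ℓ cW) X -
        algebraMap W[X] (RR ℓ cW) (C (algebraMap V W (cV i))) ∈ (pp cW i : Ideal (RR ℓ cW)) := by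
      rw [← map_sub, hW]
      exact xc_mem_pp i
    have h3 := (red r hW hκ hr hζW hζκ).redP_maximal h1 (o := cV i) h2
    have h4 := (red r hW hκ hr hζW hζκ).redP_x (o := cV i) h2
    refine eq_pp h3 i ?_
    rw [map_sub, ← hκ]
    exact h4
  have hrot : ∀ (z : V) (hz : algebraMap V W z ^ ℓ = 1) (hz' : r z ^ ℓ = 1)
      (x : ClassGroup (RR ℓ cW)), (red r hW hκ hr hζW hζκ).redC
        (clm (rot (algebraMap V W z) hz) x) = clm (rot (r z) hz')
          ((red r hW hκ hr hζW hζκ).redC x) := by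
    intro z hz hz' x
    have hzV : z ^ ℓ = 1 := by
      apply hinj
      rw [map_pow, hz, map_one]
    refine Red.redC_clm _ _ _ (rot z hzV) ?_ ?_ x
    · intro b
      ext1 j
      rw [map_ap, rot_ap, rot_ap, map_ap, Polynomial.map_mul, Polynomial.map_C, map_pow]
    · intro b
      ext1 j
      rw [map_ap, rot_ap, rot_ap, map_ap, Polynomial.map_mul, Polynomial.map_C, map_pow]
  refine ⟨(red r hW hκ hr hζW hζκ).redC, hpp, hrot, ?_, ?_⟩
  · intro γV γ γκ hγ hγκ h1 h2 x
    have hγV : ∀ i, γV (cV i) = cV i := by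
      intro i
      apply hinj
      rw [h1, hW, hγ]
    refine Red.redC_clm _ _ _ (RR.mapEquiv γV hγV) ?_ ?_ x
    · intro b
      ext1 j
      rw [map_ap, mapEquiv_ap, mapEquiv_ap, map_ap, Polynomial.map_map, Polynomial.map_map]
      congr 1
      exact RingHom.ext h1
    · intro b
      ext1 j
      rw [map_ap, mapEquiv_ap, mapEquiv_ap, map_ap, Polynomial.map_map, Polynomial.map_map]
      congr 1
      exact RingHom.ext fun a => (h2 a).symm
  · intro x n
    induction n generalizing x with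
    | zero => intro h _; exact h
    | succ n ih =>
      intro h hx
      rw [Function.iterate_succ_apply] at h
      have h1 : (red r hW hκ hr hζW hζκ).redC (pi1 (algebraMap V W ζ) hζW.pow_eq_one x) = 1 := by
        rw [pi1_ap, _root_.map_div, hrot ζ hζW.pow_eq_one hζκ.pow_eq_one, hx, map_one, div_one]
      have h2 := ih _ h h1
      obtain ⟨i, j, hi, hj, rfl⟩ := ker_pi1 hζW x h2
      rw [map_mul, map_pow, map_pow, hpp, hpp] at hx
      obtain ⟨rfl, rfl⟩ := rel_pp i j hi hj hx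
      simp

/-- the reduction homomorphism is injective on the `π`-power torsion; automorphisms of `W`
acting trivially on the residue field act trivially on the `π`-power torsion -/
theorem exists_red' : ∃ R : ClassGroup (RR ℓ cW) →* ClassGroup (RR ℓ cκ),
    (∀ i, R (cl (pp cW i)) = cl (pp cκ i)) ∧
    (∀ (z : V) (hz : algebraMap V W z ^ ℓ = 1) (hz' : r z ^ ℓ = 1) (x : ClassGroup (RR ℓ cW)),
      R (clm (rot (algebraMap V W z) hz) x) = clm (rot (r z) hz') (R x)) ∧
    (∀ (γV : V ≃+* V) (γ : W ≃+* W) (γκ : κ ≃+* κ) (hγ : ∀ i, γ (cW i) = cW i)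
      (hγκ : ∀ i, γκ (cκ i) = cκ i), (∀ a, algebraMap V W (γV a) = γ (algebraMap V W a)) →
      (∀ a, γκ (r a) = r (γV a)) → ∀ x : ClassGroup (RR ℓ cW),
      R (clm (RR.mapEquiv γ hγ) x) = clm (RR.mapEquiv γκ hγκ) (R x)) ∧
    (∀ x y : ClassGroup (RR ℓ cW), (∃ n, (pi1 (algebraMap V W ζ) hζW.pow_eq_one)^[n] x = 1) →
      (∃ n, (pi1 (algebraMap V W ζ) hζW.pow_eq_one)^[n] y = 1) → R x = R y → x = y) ∧
    (∀ (γV : V ≃+* V) (γ : W ≃+* W) (hγ : ∀ i, γ (cW i) = cW i),
      (∀ a, algebraMap V W (γV a) = γ (algebraMap V W a)) → (∀ a, r (γV a) = r a) →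
      γV ζ = ζ → ∀ x : ClassGroup (RR ℓ cW),
      (∃ n, (pi1 (algebraMap V W ζ) hζW.pow_eq_one)^[n] x = 1) →
      clm (RR.mapEquiv γ hγ) x = x) := by
  obtain ⟨R, h1, h2, h3, h4⟩ := exists_red r hr hW hκ hζW hζκ
  have h5 : ∀ x y : ClassGroup (RR ℓ cW),
      (∃ n, (pi1 (algebraMap V W ζ) hζW.pow_eq_one)^[n] x = 1) →
      (∃ n, (pi1 (algebraMap V W ζ) hζW.pow_eq_one)^[n] y = 1) → R x = R y → x = y := by
    rintro x y ⟨n, hn⟩ ⟨m, hm⟩ hxy
    have := h4 (x / y) (max n m) (pi1_iter_div _ x y hn hm) (by rw [_root_.map_div, hxy, div_self'])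
    exact div_eq_one.1 this
  refine ⟨R, h1, h2, h3, h5, ?_⟩
  intro γV γ hγ hγV hγr hζ x hx
  have hcomm : ∀ y : ClassGroup (RR ℓ cW), pi1 (algebraMap V W ζ) hζW.pow_eq_one
      (clm (RR.mapEquiv γ hγ) y) = clm (RR.mapEquiv γ hγ)
        (pi1 (algebraMap V W ζ) hζW.pow_eq_one y) := by
    intro y
    rw [pi1_ap, pi1_ap, _root_.map_div]
    congr 1
    obtain ⟨I, hI, rfl⟩ := cl_surj y
    rw [clm_cl _ hI, clm_cl _ hI, clm_cl _ (map_ne_bot _ hI), clm_cl _ (map_ne_bot _ hI)]
    congr 1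
    have h6 : ∀ s : RR ℓ cW, rot (algebraMap V W ζ) hζW.pow_eq_one (RR.mapEquiv γ hγ s) =
        RR.mapEquiv γ hγ (rot (algebraMap V W ζ) hζW.pow_eq_one s) := by
      intro s
      ext1 j
      rw [rot_ap, mapEquiv_ap, mapEquiv_ap, rot_ap, Polynomial.map_mul, Polynomial.map_C]
      have h9 : (γ : W →+* W) (algebraMap V W ζ ^ j.val) = algebraMap V W ζ ^ j.val := by
        change γ (algebraMap V W ζ ^ j.val) = _
        rw [map_pow, ← hγV, hζ]
      rw [h9]
    ext a
    rw [← map_coe, ← map_coe, ← map_coe, ← map_coe, mem_map_equiv, mem_map_equiv, mem_map_equiv,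
      mem_map_equiv]
    have h7 : (RR.mapEquiv γ hγ).symm ((rot (algebraMap V W ζ) hζW.pow_eq_one).symm a) =
        (rot (algebraMap V W ζ) hζW.pow_eq_one).symm ((RR.mapEquiv γ hγ).symm a) := by
      rw [RingEquiv.symm_apply_eq, RingEquiv.symm_apply_eq, h6, RingEquiv.apply_symm_apply,
        RingEquiv.apply_symm_apply]
    rw [h7]
  have hiter : ∀ (n : ℕ) (y : ClassGroup (RR ℓ cW)),
      (pi1 (algebraMap V W ζ) hζW.pow_eq_one)^[n] (clm (RR.mapEquiv γ hγ) y) =
      clm (RR.mapEquiv γ hγ) ((pi1 (algebraMap V W ζ) hζW.pow_eq_one)^[n] y) := by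
    intro n
    induction n with
    | zero => intro y; rfl
    | succ n ih => intro y; rw [Function.iterate_succ_apply, Function.iterate_succ_apply, hcomm, ih]
  obtain ⟨n, hn⟩ := hx
  refine h5 _ _ ⟨n, ?_⟩ ⟨n, hn⟩ ?_
  · rw [hiter, hn, map_one]
  · have hid : ∀ i, (RingEquiv.refl κ) (cκ i) = cκ i := fun i => rfl
    have := h3 γV γ (RingEquiv.refl κ) hγ hid hγV (fun a => (hγr a).symm) x
    rw [this]
    obtain ⟨I, hI, hI'⟩ := cl_surj (R x)
    rw [← hI', clm_cl _ hI]
    congr 1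
    have h8 : (RR.mapEquiv (RingEquiv.refl κ) hid : RR ℓ cκ ≃+* RR ℓ cκ) =
        RingEquiv.refl _ := by
      ext1 s
      ext1 j
      rw [mapEquiv_ap]
      exact Polynomial.map_id
    ext a
    rw [← map_coe, mem_map_equiv, h8]
    rfl

end main

end Pool.Agent.SN
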