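import Pool.Agent.Helper87.SN.Cls
import Pool.Agent.Helper12.SN.Jac

set_option autoImplicit false
set_option linter.unusedSectionVars false

/-!
# PROJECT SB, block N, part (b): the reduction data for the curve `y ^ ℓ (x - c 1) = ...`
-/

open Polynomial Finset
open scoped nonZeroDivisors

namespace Pool.Agent.SN

open Pool.Agent.Helper12.SN

section side

variable {ℓ : ℕ} [Fact ℓ.Prime] {f : Type} [Field f] {c : Fin 3 → f}

theorem map_coe {R S : Type*} [CommRing R] [CommRing S] (g : R ≃+* S) (I : Ideal R) :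
    I.map (g : R →+* S) = I.map g := rfl

/-- the curve over an algebraically closed field -/
noncomputable def side [IsAlgClosed f] [Good ℓ c] {z : f} (hζ : IsPrimitiveRoot z ℓ) :
    Side f (RR ℓ c) (Fin ℓ) where
  e := algebraMap f[X] (RR ℓ c)
  σ := fun k => (rot z hζ.pow_eq_one ^ (k : ℕ) : RR ℓ c ≃+* RR ℓ c)
  one := ⟨⟨0, (Fact.out : ℓ.Prime).pos⟩, fun a => rfl⟩
  xinj := algebraMap_injective
  prime := by
    intro P hP
    obtain ⟨x0, h0⟩ := exists_xc hP
    refine ⟨x0, by rw [← map_sub]; exact h0, ?_⟩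
    rw [← map_sub, ← nI_point hζ hP h0]
    unfold nI
    exact (Finset.prod_range
      (fun k => Ideal.map (rot z hζ.pow_eq_one ^ k : RR ℓ c ≃+* RR ℓ c) P)).symm
  res := by
    intro P hP h
    exact exists_con_sub_mem hP h
  units := by
    intro u hu
    obtain ⟨h1, h2⟩ := unit_eq_con hu
    exact ⟨lc u, h2.ne_zero, h1⟩

end side

section red

variable {ℓ : ℕ} [Fact ℓ.Prime] {V W κ : Type} [CommRing V] [IsDomain V] [ValuationRing V]
  [Field W] [Algebra V W] [IsFractionRing V W] [Field κ] (r : V →+* κ)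
  {cV : Fin 3 → V} {cW : Fin 3 → W} {cκ : Fin 3 → κ}
  (hW : ∀ i, algebraMap V W (cV i) = cW i) (hκ : ∀ i, r (cV i) = cκ i)

theorem map_algebraMap {A B : Type} [CommRing A] [CommRing B] {c : Fin 3 → A} {d : Fin 3 → B}
    (φ : A →+* B) (h : ∀ i, φ (c i) = d i) (q : A[X]) :
    RR.map φ h (algebraMap A[X] (RR ℓ c) q) = algebraMap B[X] (RR ℓ d) (q.map φ) := by
  ext1 j
  rw [map_ap, algebraMap_ap, algebraMap_ap]
  split_ifs <;> simp

theorem map_surjective {A B : Type} [CommRing A] [CommRing B] {c : Fin 3 → A} {d : Fin 3 → B}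
    (φ : A →+* B) (hφ : Function.Surjective φ) (h : ∀ i, φ (c i) = d i) :
    Function.Surjective (RR.map φ h : RR ℓ c →+* RR ℓ d) := by
  intro s
  choose t ht using fun j => Polynomial.map_surjective φ hφ (s j)
  exact ⟨⟨t⟩, by ext1 j; exact ht j⟩

/-- scaling of finitely many elements -/
theorem exists_scale (s : Finset W) (hs : ∃ b ∈ s, b ≠ 0) :
    ∃ a : W, a ≠ 0 ∧ (∀ b ∈ s, ∃ o : V, algebraMap V W o = a * b) ∧ ∃ b ∈ s, a * b = 1 := by
  obtain ⟨b0, hb0, hb0'⟩ := hs
  obtain ⟨b1, hb1, hmax⟩ := Finset.exists_max_image s (ValuationRing.valuation V W) ⟨b0, hb0⟩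
  have hb1' : b1 ≠ 0 := by
    rintro rfl
    have h1 := hmax b0 hb0
    rw [map_zero] at h1
    have h2 := le_antisymm h1 (zero_le)
    exact hb0' ((Valuation.zero_iff _).1 h2)
  refine ⟨b1⁻¹, inv_ne_zero hb1', ?_, b1, hb1, inv_mul_cancel₀ hb1'⟩
  intro b hb
  have h1 : ValuationRing.valuation V W (b1⁻¹ * b) ≤ 1 := by
    rw [map_mul, map_inv₀]
    have h2 : ValuationRing.valuation V W b1 ≠ 0 := (Valuation.ne_zero_iff _).2 hb1'
    rw [inv_mul_le_one₀ (zero_lt_iff.2 h2)]
    exact hmax b hb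
  exact (ValuationRing.mem_integer_iff V W _).1 h1

/-- scaling of an element of the affine ring -/
theorem exists_scale_RR (h : RR ℓ cW) (hh : h ≠ 0) :
    ∃ a : W, a ≠ 0 ∧ ∃ b : RR ℓ cV, RR.map (algebraMap V W) hW b =
      algebraMap W[X] (RR ℓ cW) (C a) * h ∧ RR.map r hκ b ≠ 0 := by
  classical
  have hj : ∃ j, h j ≠ 0 := by
    by_contra hcon
    push Not at hcon
    exact hh (by ext1 j; rw [hcon j]; rfl)
  obtain ⟨j0, hj0⟩ := hj
  obtain ⟨a, ha, h1, b1, hb1, hab⟩ := exists_scale (V := V)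
    (Finset.univ.biUnion fun j : ZMod ℓ => (h j).coeffs)
    ⟨(h j0).leadingCoeff, by
      rw [Finset.mem_biUnion]
      refine ⟨j0, Finset.mem_univ _, ?_⟩
      rw [Polynomial.mem_coeffs_iff]
      exact ⟨(h j0).natDegree, Polynomial.natDegree_mem_support_of_nonzero hj0, rfl⟩,
      Polynomial.leadingCoeff_ne_zero.2 hj0⟩
  have h2 : ∀ j, ∃ q : V[X], q.map (algebraMap V W) = C a * h j := by
    intro j
    have : C a * h j ∈ Polynomial.lifts (algebraMap V W) := by
      rw [Polynomial.lifts_iff_coeff_lifts]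
      intro n
      rw [Polynomial.coeff_C_mul]
      by_cases h0 : (h j).coeff n = 0
      · exact ⟨0, by rw [h0, map_zero, mul_zero]⟩
      · apply h1
        rw [Finset.mem_biUnion]
        refine ⟨j, Finset.mem_univ _, ?_⟩
        rw [Polynomial.mem_coeffs_iff]
        exact ⟨n, Polynomial.mem_support_iff.2 h0, rfl⟩
    exact (Polynomial.mem_lifts _).1 this
  choose q hq using h2
  refine ⟨a, ha, ⟨q⟩, ?_, ?_⟩
  · rw [← Algebra.smul_def]
    ext1 j
    rw [map_ap, smul_ap]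
    exact hq j
  · intro h0
    rw [Finset.mem_biUnion] at hb1
    obtain ⟨j, -, hj⟩ := hb1
    rw [Polynomial.mem_coeffs_iff] at hj
    obtain ⟨n, -, rfl⟩ := hj
    have h3 : (q j).coeff n = 1 := by
      apply IsFractionRing.injective V W
      rw [← Polynomial.coeff_map, hq j, Polynomial.coeff_C_mul, hab, map_one]
    have h4 : ((RR.map r hκ (⟨q⟩ : RR ℓ cV)) j).coeff n = 0 := by
      rw [h0]
      rfl
    rw [map_ap, Polynomial.coeff_map] at h4
    change r ((q j).coeff n) = 0 at h4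
    rw [h3, map_one] at h4
    exact one_ne_zero h4

/-- the reduction data -/
noncomputable def red [IsAlgClosed W] [IsAlgClosed κ] [Good ℓ cW] [Good ℓ cκ]
    (hr : Function.Surjective r) {ζ : V} (hζW : IsPrimitiveRoot (algebraMap V W ζ) ℓ)
    (hζκ : IsPrimitiveRoot (r ζ) ℓ) :
    Red (side (c := cW) hζW) (side (c := cκ) hζκ) r (RR.map (algebraMap V W) hW)
      (RR.map r hκ) where
  rsurj := hr
  c := algebraMap V[X] (RR ℓ cV)
  inj := map_injective _ (IsFractionRing.injective V W) _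
  surj := map_surjective _ hr _
  ιc := fun q => map_algebraMap _ _ q
  φc := fun q => map_algebraMap _ _ q
  scale := fun h hh => exists_scale_RR r hW hκ h hh
  norm := by
    intro b
    have hz : ζ ^ ℓ = 1 := by
      apply IsFractionRing.injective V W
      rw [map_pow, hζW.pow_eq_one, map_one]
    refine ⟨nm ζ hz b, ?_, ?_⟩
    · change ∏ j : Fin ℓ, (rot _ hζW.pow_eq_one ^ (j : ℕ) : RR ℓ cW ≃+* RR ℓ cW) _ =
        algebraMap W[X] (RR ℓ cW) _
      rw [← nm_map (algebraMap V W) hW ζ hz hζW.pow_eq_one, algebraMap_nm hζW]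
      exact (Finset.prod_range (fun k =>
        (rot _ hζW.pow_eq_one ^ k : RR ℓ cW ≃+* RR ℓ cW) (RR.map (algebraMap V W) hW b))).symm
    · change ∏ j : Fin ℓ, (rot _ hζκ.pow_eq_one ^ (j : ℕ) : RR ℓ cκ ≃+* RR ℓ cκ) _ =
        algebraMap κ[X] (RR ℓ cκ) _
      rw [← nm_map r hκ ζ hz hζκ.pow_eq_one, algebraMap_nm hζκ]
      exact (Finset.prod_range (fun k =>
        (rot _ hζκ.pow_eq_one ^ k : RR ℓ cκ ≃+* RR ℓ cκ) (RR.map r hκ b))).symm

end red

end Pool.Agent.SN
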