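import Pool.Agent.Helper87.SN.Pts

set_option autoImplicit false
set_option linter.unusedSectionVars false

/-!
# PROJECT SB, block N, part (b): the multiplicative reduction of ideals and principal ideals
-/

open Polynomial Finset UniqueFactorizationMonoid
open scoped nonZeroDivisors

namespace Pool.Agent.SN

/-- the multiplicative reduction of ideals -/
noncomputable def redI {A A' B : Type*} [CommRing A] [IsDedekindDomain A]
    [CommRing A'] [CommRing B] (ι : B →+* A) (φ : B →+* A') (I : Ideal A) : Ideal A' :=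
  ((normalizedFactors I).map (redP ι φ)).prod

section

variable {A A' B : Type*} [CommRing A] [IsDedekindDomain A]
    [CommRing A'] [CommRing B] (ι : B →+* A) (φ : B →+* A')

theorem redI_one : redI ι φ 1 = 1 := by
  unfold redI
  rw [normalizedFactors_one]
  simp

theorem redI_mul {I K : Ideal A} (hI : I ≠ 0) (hK : K ≠ 0) :
    redI ι φ (I * K) = redI ι φ I * redI ι φ K := by
  unfold redI
  rw [normalizedFactors_mul hI hK, Multiset.map_add, Multiset.prod_add]

theorem redI_prime {P : Ideal A} (hP : P.IsMaximal) (hP0 : P ≠ ⊥) :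
    redI ι φ P = redP ι φ P := by
  unfold redI
  have hpr : Prime P := Ideal.prime_of_isPrime hP0 hP.isPrime
  rw [normalizedFactors_irreducible hpr.irreducible]
  simp

theorem normalizedFactors_prod_ideal {I : Ideal A} (hI : I ≠ 0) :
    (normalizedFactors I).prod = I :=
  Ideal.prod_normalizedFactors_eq_self hI

theorem mem_normalizedFactors_maximal {I P : Ideal A} (hP : P ∈ normalizedFactors I) :
    P.IsMaximal ∧ P ≠ ⊥ := by
  have hpr := prime_of_normalized_factor P hP
  exact ⟨(Ideal.isPrime_of_prime hpr).isMaximal hpr.ne_zero, hpr.ne_zero⟩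

theorem redI_multiset (s : Multiset (Ideal A)) (hs : ∀ P ∈ s, P.IsMaximal ∧ P ≠ ⊥) :
    s.prod ≠ 0 ∧ redI ι φ s.prod = (s.map (redP ι φ)).prod := by
  induction s using Multiset.induction_on with
  | empty => simpa using redI_one ι φ
  | cons P s ih =>
    obtain ⟨h1, h2⟩ := ih (fun Q hQ => hs Q (Multiset.mem_cons_of_mem hQ))
    obtain ⟨h3, h4⟩ := hs P (Multiset.mem_cons_self P s)
    rw [Multiset.prod_cons, Multiset.map_cons, Multiset.prod_cons]
    exact ⟨mul_ne_zero h4 h1, by rw [redI_mul ι φ h4 h1, h2, redI_prime ι φ h3 h4]⟩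

theorem redI_le {I : Ideal A} (hI : I ≠ 0) : redI ι φ I ≤ redP ι φ I := by
  have key : ∀ s : Multiset (Ideal A), (s.map (redP ι φ)).prod ≤ redP ι φ s.prod := by
    intro s
    induction s using Multiset.induction_on with
    | empty =>
      simp only [Multiset.map_zero, Multiset.prod_zero]
      unfold redP
      rw [Ideal.one_eq_top, Ideal.one_eq_top, Ideal.comap_top, Ideal.map_top]
    | cons P s ih =>
      rw [Multiset.prod_cons, Multiset.map_cons, Multiset.prod_cons]
      exact (Ideal.mul_mono_right ih).trans (redP_mul_le P s.prod)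
  have := key (normalizedFactors I)
  rwa [normalizedFactors_prod_ideal hI] at this

end

section

variable {W κ O A A' B J : Type*} [Field W] [Field κ] [CommRing O] [IsDomain O] [ValuationRing O]
    [Algebra O W] [IsFractionRing O W]
    [CommRing A] [IsDedekindDomain A] [CommRing A'] [IsDedekindDomain A']
    [CommRing B]
    [Fintype J] {S : Side W A J} {S' : Side κ A' J} {r : O →+* κ} {ι : B →+* A} {φ : B →+* A'}
    (D : Red S S' r ι φ)

include D

theorem Red.redI_ne_zero (I : Ideal A) : redI ι φ I ≠ 0 := by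
  unfold redI
  rw [Ne, Multiset.prod_eq_zero_iff]
  intro h
  obtain ⟨P, hP, hP0⟩ := Multiset.mem_map.1 h
  exact D.redP_ne_bot (mem_normalizedFactors_maximal hP).2 hP0

/-- norms of an ideal and of its reduction come from one polynomial -/
theorem Red.NI_redI {I : Ideal A} (hI : I ≠ 0) :
    ∃ g : O[X], g.map r ≠ 0 ∧ S.NI I = Ideal.span {S.e (g.map (algebraMap O W))} ∧
      S'.NI (redI ι φ I) = Ideal.span {S'.e (g.map r)} := by
  have key : ∀ s : Multiset (Ideal A), (∀ P ∈ s, P.IsMaximal ∧ P ≠ ⊥) →
      ∃ g : O[X], g.map r ≠ 0 ∧ S.NI s.prod = Ideal.span {S.e (g.map (algebraMap O W))} ∧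
      S'.NI (s.map (redP ι φ)).prod = Ideal.span {S'.e (g.map r)} := by
    intro s
    induction s using Multiset.induction_on with
    | empty =>
      intro _
      refine ⟨1, by simp, ?_, ?_⟩
      · rw [Multiset.prod_zero, Ideal.one_eq_top, S.NI_top]
        simp
      · rw [Multiset.map_zero, Multiset.prod_zero, Ideal.one_eq_top, S'.NI_top]
        simp
    | cons P s ih =>
      intro hs
      obtain ⟨g, hg, h1, h2⟩ := ih (fun Q hQ => hs Q (Multiset.mem_cons_of_mem hQ))
      obtain ⟨g', hg', h1', h2'⟩ := D.NI_prime (hs P (Multiset.mem_cons_self P s)).1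
      refine ⟨g' * g, ?_, ?_, ?_⟩
      · rw [Polynomial.map_mul]
        exact mul_ne_zero hg' hg
      · rw [Multiset.prod_cons, S.NI_mul, h1, h1', Ideal.span_singleton_mul_span_singleton,
          Polynomial.map_mul, map_mul]
      · rw [Multiset.map_cons, Multiset.prod_cons, S'.NI_mul, h2, h2',
          Ideal.span_singleton_mul_span_singleton, Polynomial.map_mul, map_mul]
  have := key (normalizedFactors I) (fun P hP => mem_normalizedFactors_maximal hP)
  rwa [normalizedFactors_prod_ideal hI] at this

/-- two polynomials over `O` with nonzero reduction whose values at `x` generate the same ideal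
have reductions with the same property -/
theorem Red.span_eq {g q : O[X]} (hg : g.map r ≠ 0) (hq : q.map r ≠ 0)
    (h : (Ideal.span {S.e (g.map (algebraMap O W))} : Ideal A) =
      Ideal.span {S.e (q.map (algebraMap O W))}) :
    (Ideal.span {S'.e (g.map r)} : Ideal A') = Ideal.span {S'.e (q.map r)} := by
  rw [Ideal.span_singleton_eq_span_singleton] at h
  obtain ⟨u, hu⟩ := h
  obtain ⟨b, hb0, hb⟩ := S.units u u.isUnit
  have hinj : Function.Injective (algebraMap O W) := IsFractionRing.injective O W
  have h1 : g.map (algebraMap O W) * C b = q.map (algebraMap O W) := by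
    have h2 : S.e (g.map (algebraMap O W) * C b - q.map (algebraMap O W)) = 0 := by
      rw [map_sub, map_mul, ← hu, hb, sub_self]
    exact sub_eq_zero.1 (S.xinj (h2.trans (map_zero _).symm))
  rcases ValuationRing.isInteger_or_isInteger O b with ⟨o, ho⟩ | ⟨o, ho⟩
  · have h2 : g * C o = q := by
      apply Polynomial.map_injective _ hinj
      rw [Polynomial.map_mul, Polynomial.map_C, ho, h1]
    have h3 : r o ≠ 0 := by
      intro h0
      apply hq
      rw [← h2, Polynomial.map_mul, Polynomial.map_C, h0, C_0, mul_zero]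
    rw [← h2, Polynomial.map_mul, Polynomial.map_C, map_mul]
    symm
    exact Ideal.span_singleton_mul_right_unit ((IsUnit.mk0 _ h3).map (S'.e.comp C)) _
  · have h2 : q * C o = g := by
      apply Polynomial.map_injective _ hinj
      rw [Polynomial.map_mul, Polynomial.map_C, ho, ← h1, mul_assoc, ← C_mul,
        mul_inv_cancel₀ hb0, C_1, mul_one]
    have h3 : r o ≠ 0 := by
      intro h0
      apply hg
      rw [← h2, Polynomial.map_mul, Polynomial.map_C, h0, C_0, mul_zero]
    rw [← h2, Polynomial.map_mul, Polynomial.map_C, map_mul]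
    exact Ideal.span_singleton_mul_right_unit ((IsUnit.mk0 _ h3).map (S'.e.comp C)) _

/-- the reduction of a principal ideal -/
theorem Red.redI_span {h : B} (hh : φ h ≠ 0) :
    redI ι φ (Ideal.span {ι h}) = Ideal.span {φ h} := by
  have hι : ι h ≠ 0 := by
    intro h0
    apply hh
    have : h = 0 := D.inj (by rw [h0, map_zero])
    rw [this, map_zero]
  have hne : (Ideal.span {ι h} : Ideal A) ≠ 0 := by
    rw [Ideal.zero_eq_bot, Ne, Ideal.span_singleton_eq_bot]
    exact hι
  have hle : redI ι φ (Ideal.span {ι h}) ≤ Ideal.span {φ h} :=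
    (redI_le ι φ hne).trans (D.redP_span_le h hh)
  obtain ⟨K, hK⟩ := Ideal.dvd_iff_le.2 hle
  obtain ⟨g, hg, h1, h2⟩ := D.NI_redI hne
  obtain ⟨q, hq, hq'⟩ := D.norm h
  have hq0 : q.map r ≠ 0 := by
    intro h0
    rw [h0, map_zero, Finset.prod_eq_zero_iff] at hq'
    obtain ⟨j, -, hj⟩ := hq'
    exact hh ((map_eq_zero_iff (S'.σ j) (S'.σ j).injective).1 hj)
  rw [S.NI_span, hq] at h1
  have h3 := D.span_eq hq0 hg h1
  rw [hK, S'.NI_mul, S'.NI_span, hq', ← h3] at h2
  have h4 : (Ideal.span {S'.e (q.map r)} : Ideal A') ≠ 0 := by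
    rw [Ideal.zero_eq_bot, Ne, Ideal.span_singleton_eq_bot]
    intro h0
    exact hq0 (S'.xinj (h0.trans (map_zero _).symm))
  have h5 : S'.NI K = 1 := by
    apply mul_left_cancel₀ h4
    rw [h2, mul_one]
  have h6 : K = 1 := by
    have := S'.dvd_NI K
    rw [h5] at this
    rw [← isUnit_iff_dvd_one, Ideal.isUnit_iff] at this
    rw [this, Ideal.one_eq_top]
  rw [hK, h6, mul_one]

theorem Red.redI_principal {h : A} (hh : h ≠ 0) :
    ∃ b : B, φ b ≠ 0 ∧ redI ι φ (Ideal.span {h}) = Ideal.span {φ b} := by
  obtain ⟨a, ha, b, hb, hφ⟩ := D.scale h hh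
  refine ⟨b, hφ, ?_⟩
  have : (Ideal.span {h} : Ideal A) = Ideal.span {ι b} := by
    rw [hb]
    symm
    exact Ideal.span_singleton_mul_left_unit ((IsUnit.mk0 _ ha).map (S.e.comp C)) _
  rw [this, D.redI_span hφ]

end

end Pool.Agent.SN
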