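import Pool.Agent.Helper87.SN.Abs

set_option autoImplicit false
set_option linter.unusedSectionVars false

/-!
# PROJECT SB, block N, part (b): reduction of maximal ideals and of products of maximal ideals
-/

open Polynomial Finset
open scoped nonZeroDivisors

namespace Pool.Agent.SN

section

variable {W κ O A A' B J : Type*} [Field W] [Field κ] [CommRing O] [IsDomain O] [ValuationRing O]
    [Algebra O W] [IsFractionRing O W]
    [CommRing A] [CommRing A'] [CommRing B]
    [Fintype J] {S : Side W A J} {S' : Side κ A' J} {r : O →+* κ} {ι : B →+* A} {φ : B →+* A'}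
    (D : Red S S' r ι φ)

include D

/-- at a point with integral coordinate the reduction is proper -/
theorem Red.redP_ne_top {P : Ideal A} (hP : P ≠ ⊤) {o : O}
    (ho : S.e X - S.e (C (algebraMap O W o)) ∈ P) : redP ι φ P ≠ ⊤ := by
  intro htop
  rw [Ideal.eq_top_iff_one, D.mem_redP] at htop
  obtain ⟨b, hb, hφ⟩ := htop
  obtain ⟨q, hq, hq'⟩ := D.norm b
  have h1 : q.map r = 1 := by
    have h2 : S'.e (q.map r - 1) = 0 := by
      rw [map_sub, ← hq', map_one, hφ]
      simp
    exact sub_eq_zero.1 (S'.xinj (h2.trans (map_zero _).symm))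
  have h3 : S.e (q.map (algebraMap O W)) ∈ P := by
    rw [← hq]
    exact S.prod_mem hb
  have h4 := S.eval_mem ho (q.map (algebraMap O W))
  have h5 : S.e (C ((q.map (algebraMap O W)).eval (algebraMap O W o))) ∈ P := by
    have := P.sub_mem h3 h4
    simpa using this
  have h6 := S.const_mem hP h5
  rw [Polynomial.eval_map_algebraMap, Polynomial.aeval_algebraMap_apply] at h6
  have h7 : q.eval o = 0 := by
    have := (map_eq_zero_iff (algebraMap O W) (IsFractionRing.injective O W)).1 h6
    simpa using this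
  have h8 : (q.map r).eval (r o) = r (q.eval o) := by
    rw [Polynomial.eval_map, Polynomial.eval₂_hom]
  rw [h1, h7, map_zero, eval_one] at h8
  exact one_ne_zero h8

/-- every element of the reduced ring is constant modulo the reduction of a maximal ideal -/
theorem Red.redP_res {P : Ideal A} (hP : P.IsMaximal) (h' : A') :
    ∃ b : κ, h' - S'.e (C b) ∈ redP ι φ P := by
  obtain ⟨b, rfl⟩ := D.surj h'
  obtain ⟨β, hβ⟩ := S.res P hP (ι b)
  by_cases h : ∃ o : O, algebraMap O W o = β
  · obtain ⟨o, rfl⟩ := h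
    refine ⟨r o, D.mem_redP.2 ⟨b - D.c (C o), ?_, ?_⟩⟩
    · rw [map_sub, D.ιC]; exact hβ
    · rw [map_sub, D.φC]
  · obtain ⟨o, ho, hr⟩ := Val.inv_mem r D.rsurj β h
    have hβ0 : β ≠ 0 := by
      rintro rfl
      exact h ⟨0, map_zero _⟩
    have htop : redP ι φ P = ⊤ := by
      rw [Ideal.eq_top_iff_one, D.mem_redP]
      refine ⟨1 - D.c (C o) * b, ?_, ?_⟩
      · have : ι (1 - D.c (C o) * b) = - S.e (C β⁻¹) * (ι b - S.e (C β)) := by
          rw [map_sub, map_one, map_mul, D.ιC, ho, mul_sub, neg_mul, neg_mul, ← map_mul,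
            ← C_mul, inv_mul_cancel₀ hβ0, C_1, map_one]
          ring
        rw [this]
        exact P.mul_mem_left _ hβ
      · rw [map_sub, map_one, map_mul, D.φC, hr, C_0, map_zero, zero_mul, sub_zero]
    refine ⟨0, ?_⟩
    rw [htop]
    trivial

theorem Red.redP_maximal {P : Ideal A} (hP : P.IsMaximal) {o : O}
    (ho : S.e X - S.e (C (algebraMap O W o)) ∈ P) : (redP ι φ P).IsMaximal := by
  rw [Ideal.isMaximal_iff]
  refine ⟨fun h => D.redP_ne_top hP.ne_top ho ((Ideal.eq_top_iff_one _).2 h), ?_⟩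
  intro K u hK hu huK
  obtain ⟨b, hb⟩ := D.redP_res hP u
  have hb0 : b ≠ 0 := by
    rintro rfl
    apply hu
    simpa using hb
  have h1 : S'.e (C b) ∈ K := by
    have := K.sub_mem huK (hK hb)
    simpa using this
  have h2 : (1 : A') = S'.e (C b⁻¹) * S'.e (C b) := by
    rw [← map_mul, ← C_mul, inv_mul_cancel₀ hb0, C_1, map_one]
  rw [h2]
  exact K.mul_mem_left _ h1

omit [IsDomain O] [ValuationRing O] [IsFractionRing O W] in
theorem Red.redP_x {P : Ideal A} {o : O}
    (ho : S.e X - S.e (C (algebraMap O W o)) ∈ P) :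
    S'.e X - S'.e (C (r o)) ∈ redP ι φ P := by
  refine D.mem_redP.2 ⟨D.c X - D.c (C o), ?_, ?_⟩
  · rw [map_sub, D.ιX, D.ιC]; exact ho
  · rw [map_sub, D.φX, D.φC]

theorem Red.redP_eq_top {P : Ideal A} {a : W} (ha : ¬ ∃ o : O, algebraMap O W o = a)
    (hP : S.e X - S.e (C a) ∈ P) : redP ι φ P = ⊤ := by
  obtain ⟨o, ho, hr⟩ := Val.inv_mem r D.rsurj a ha
  have ha0 : a ≠ 0 := by
    rintro rfl
    exact ha ⟨0, map_zero _⟩
  rw [Ideal.eq_top_iff_one, D.mem_redP]
  refine ⟨1 - D.c (C o) * D.c X, ?_, ?_⟩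
  · have : ι (1 - D.c (C o) * D.c X) = - S.e (C a⁻¹) * (S.e X - S.e (C a)) := by
      rw [map_sub, map_one, map_mul, D.ιC, ho, D.ιX]
      linear_combination - S.inv_mul ha0
    rw [this]
    exact P.mul_mem_left _ hP
  · rw [map_sub, map_one, map_mul, D.φC, hr, C_0, map_zero, zero_mul, sub_zero]

/-- norms of maximal ideals and of their reductions come from one polynomial -/
theorem Red.NI_prime {P : Ideal A} (hP : P.IsMaximal) :
    ∃ g : O[X], g.map r ≠ 0 ∧ S.NI P = Ideal.span {S.e (g.map (algebraMap O W))} ∧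
      S'.NI (redP ι φ P) = Ideal.span {S'.e (g.map r)} := by
  obtain ⟨a, ha, hN⟩ := S.prime P hP
  by_cases h : ∃ o : O, algebraMap O W o = a
  · obtain ⟨o, rfl⟩ := h
    refine ⟨X - C o, ?_, ?_, ?_⟩
    · rw [Polynomial.map_sub, Polynomial.map_X, Polynomial.map_C]
      exact X_sub_C_ne_zero _
    · unfold Side.NI
      rw [hN]
      simp
    · obtain ⟨a', ha', hN'⟩ := S'.prime _ (D.redP_maximal hP ha)
      have h1 := (redP ι φ P).sub_mem (D.redP_x ha) ha'
      have h2 : S'.e (C (a' - r o)) ∈ redP ι φ P := by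
        have : S'.e X - S'.e (C (r o)) - (S'.e X - S'.e (C a')) =
          S'.e (C (a' - r o)) := by rw [C_sub, map_sub]; ring
        rwa [this] at h1
      have h3  := S'.const_mem (D.redP_ne_top hP.ne_top ha) h2
      unfold Side.NI
      rw [hN', sub_eq_zero.1 h3]
      simp
  · obtain ⟨o, ho, hr⟩ := Val.inv_mem r D.rsurj a h
    have ha0 : a ≠ 0 := by
      rintro rfl
      exact h ⟨0, map_zero _⟩
    refine ⟨1 - C o * X, ?_, ?_, ?_⟩
    · rw [Polynomial.map_sub, Polynomial.map_mul, Polynomial.map_C, hr]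
      simp
    · unfold Side.NI
      rw [hN]
      have : S.e ((1 - C o * X : O[X]).map (algebraMap O W)) =
          (S.e X - S.e (C a)) * (- S.e (C a⁻¹)) := by
        rw [Polynomial.map_sub, Polynomial.map_mul, Polynomial.map_C, ho, Polynomial.map_one,
          Polynomial.map_X, map_sub, map_mul, map_one]
        linear_combination - S.inv_mul ha0
      rw [this]
      symm
      apply Ideal.span_singleton_mul_right_unit
      exact IsUnit.neg ((IsUnit.mk0 _ (inv_ne_zero ha0)).map (S.e.comp C))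
    · rw [D.redP_eq_top h ha, S'.NI_top, Polynomial.map_sub, Polynomial.map_mul, Polynomial.map_C,
        hr]
      simp

end

end Pool.Agent.SN
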